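import Pool.Agent.Helper89.A8.Stmts
import Pool.Agent.Helper89.A8.GTools

/-!
# Block A8-G15: duality (MP_93c1ff)
-/

set_option autoImplicit false

namespace Pool.Agent.A8

open Matrix

namespace G15

/-- the dual type -/
def dt : Ty → Ty
  | .v => .d
  | .d => .v
  | .l => .l

/-- the matrix of `gc` -/
def cM : M4 := gc.1

/-- the semilinear map -/
def io : (a : Ty) → Md a → Md (dt a)
  | .v => fun v => (cM *ᵥ v : Fin 4 → ZMod 2)
  | .d => fun v => (cM *ᵥ v : Fin 4 → ZMod 2)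
  | .l => fun l => (actL cM (hs l) : Fin 6 → ZMod 2)

theorem cM_sq : cM * cM = 1 := by decide

theorem cM_T : cMᵀ = cM := by decide

theorem gc_sq : gc * gc = 1 := by
  apply Units.ext
  decide

theorem io_add (a : Ty) (x y : Md a) : io a (x + y) = io a x + io a y := by
  cases a
  · exact Matrix.mulVec_add _ _ _
  · exact Matrix.mulVec_add _ _ _
  · change actL cM (hs (x + y)) = actL cM (hs x) + actL cM (hs y)
    rw [show hs (x + y) = hs x + hs y from hs_add x y, actL_add]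

theorem io_zero (a : Ty) : io a 0 = 0 := by
  have h := io_add a 0 0
  rw [add_zero] at h
  exact left_eq_add.1 h

theorem hs_actL_cM (l : V6) : hs (actL cM l) = actL cM (hs l) := by
  rw [hs_actL cM cM cM_sq, cM_T]

theorem dt_dt (a : Ty) : dt (dt a) = a := by cases a <;> rfl

theorem raw_vv (v : V4) : cM *ᵥ (cM *ᵥ v) = v := by
  rw [Matrix.mulVec_mulVec, cM_sq, Matrix.one_mulVec]

theorem raw_ll (l : V6) : actL cM (hs (actL cM (hs l))) = l := by
  rw [hs_actL_cM, hs_hs, ← actL_mul, cM_sq, actL_one]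

theorem io_io (a : Ty) (x : Md a) : io (dt a) (io a x) = (dt_dt a).symm ▸ x := by
  cases a
  · exact raw_vv x
  · exact raw_vv x
  · exact raw_ll x

theorem dlG_val (g : Gam) : (dlG g).1 = cM * (g⁻¹).1ᵀ * cM := by
  have h : dlG g = gc * sig g * gc⁻¹ := rfl
  have hinv : gc⁻¹ = gc := by
    rw [inv_eq_iff_mul_eq_one]
    exact gc_sq
  rw [h, hinv]
  rfl

theorem dlG_inv_val (g : Gam) : ((dlG g)⁻¹).1 = cM * g.1ᵀ * cM := by
  rw [← map_inv, dlG_val, inv_inv]

theorem raw_v (g : Gam) (x : V4) :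
    cM *ᵥ (g.1 *ᵥ x) = ((dlG g)⁻¹).1ᵀ *ᵥ (cM *ᵥ x) := by
  rw [dlG_inv_val, Matrix.mulVec_mulVec, Matrix.mulVec_mulVec]
  congr 1
  rw [Matrix.transpose_mul, Matrix.transpose_mul, Matrix.transpose_transpose, cM_T,
    Matrix.mul_assoc, Matrix.mul_assoc, cM_sq, Matrix.mul_one]

theorem raw_d (g : Gam) (x : V4) :
    cM *ᵥ ((g⁻¹).1ᵀ *ᵥ x) = (dlG g).1 *ᵥ (cM *ᵥ x) := by
  rw [dlG_val, Matrix.mulVec_mulVec, Matrix.mulVec_mulVec]
  congr 1
  rw [Matrix.mul_assoc, cM_sq, Matrix.mul_one]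

theorem raw_l (g : Gam) (x : V6) :
    actL cM (hs (actL g.1 x)) = actL (dlG g).1 (actL cM (hs x)) := by
  rw [dlG_val, hs_actL g.1 (g⁻¹).1 (gam_mul_inv g), ← actL_mul, ← actL_mul]
  congr 1
  rw [Matrix.mul_assoc _ cM cM, cM_sq, Matrix.mul_one]

theorem io_act (a : Ty) (g : Gam) (x : Md a) : io a (act g x) = act (dlG g) (io a x) := by
  cases a
  · exact ((congrArg (fun z : V4 => cM *ᵥ z) (act_MV g x)).trans (raw_v g x)).trans
      (act_MD (dlG g) (io .v x)).symm
  · exact ((congrArg (fun z : V4 => cM *ᵥ z) (act_MD g x)).trans (raw_d g x)).trans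
      (act_MV (dlG g) (io .d x)).symm
  · exact ((congrArg (fun z : V6 => actL cM (hs z)) (act_ML g x)).trans (raw_l g x)).trans
      (act_ML (dlG g) (io .l x)).symm

theorem io_inj (a : Ty) {x y : Md a} (h : io a x = io a y) : x = y := by
  have h1 := congrArg (io (dt a)) h
  rw [io_io, io_io] at h1
  cases a <;> exact h1

theorem io_surj (a : Ty) (y : Md (dt a)) : ∃ x : Md a, io a x = y := by
  cases a
  · exact ⟨io .d y, io_io .d y⟩
  · exact ⟨io .v y, io_io .v y⟩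
  · exact ⟨io .l y, io_io .l y⟩

theorem io_eq_zero (a : Ty) {x : Md a} : io a x = 0 ↔ x = 0 :=
  ⟨fun h => io_inj a (h.trans (io_zero a).symm), fun h => by rw [h, io_zero]⟩

theorem dlG_dlG (g : Gam) : dlG (dlG g) = g := by
  apply Units.ext
  rw [dlG_val, dlG_inv_val, Matrix.transpose_mul, Matrix.transpose_mul,
    Matrix.transpose_transpose, cM_T]
  have e : cM * (cM * (g.1 * cM)) * cM = (cM * cM) * g.1 * (cM * cM) := by
    simp only [Matrix.mul_assoc]
  rw [e, cM_sq, Matrix.one_mul, Matrix.mul_one]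

theorem dlG_eq_one {g : Gam} : dlG g = 1 ↔ g = 1 := by
  constructor
  · intro h
    rw [← dlG_dlG g, h, map_one]
  · rintro rfl
    exact map_one _

variable {G : Type} [Group G] {π : G →* Gam}

theorem ker_eq (π : G →* Gam) : (dlG.comp π).ker = π.ker := by
  ext x
  rw [MonoidHom.mem_ker, MonoidHom.mem_ker, MonoidHom.comp_apply, dlG_eq_one]

theorem comp_comp (π : G →* Gam) : dlG.comp (dlG.comp π) = π := by
  ext1 x
  exact dlG_dlG _

theorem loc_of {R : Subgroup G} {a : Ty} {φ : G → Md a} (h : Loc π R a φ) :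
    Loc (dlG.comp π) R (dt a) (fun x => io a (φ x)) where
  mul x hx y hy := by rw [h.mul x hx y hy, io_add]
  conj g x hx := by rw [h.conj g x hx, io_act]; rfl
  normal := h.normal
  le := by rw [ker_eq]; exact h.le
  surj m := by
    obtain ⟨y, hy⟩ := io_surj a m
    obtain ⟨x, hx, hxy⟩ := h.surj y
    exact ⟨x, hx, by rw [hxy, hy]⟩
  top X hX hXR hne := by
    obtain ⟨x, hx, hx0⟩ := hne
    exact h.top X hX hXR ⟨x, hx, fun h0 => hx0 (by rw [h0, io_zero])⟩

theorem Kt_le (π : G →* Gam) (a : Ty) : Kt π a ≤ Kt (dlG.comp π) (dt a) := by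
  refine sSup_le ?_
  rintro R ⟨φ, hR⟩
  exact le_sSup ⟨_, loc_of hR⟩

theorem Kt_eq (π : G →* Gam) (a : Ty) : Kt (dlG.comp π) a = Kt π (dt a) := by
  apply le_antisymm
  · have h := Kt_le (dlG.comp π) a
    rwa [comp_comp] at h
  · have h := Kt_le π (dt a)
    rwa [dt_dt] at h

theorem cfg (h : Cfg π) : Cfg (dlG.comp π) where
  surj g := by
    obtain ⟨x, hx⟩ := h.surj (dlG g)
    exact ⟨x, by rw [MonoidHom.comp_apply, hx, dlG_dlG]⟩
  ker2 := by rw [ker_eq]; exact h.ker2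
  n16 := h.n16
  n20 := h.n20
  n28 := h.n28
  n30 := h.n30

end G15

/-- duality -/
theorem bDUALG : S_DUALG := by
  intro G _ _ π h
  exact ⟨G15.cfg h, G15.Kt_eq π .v, G15.Kt_eq π .d, G15.Kt_eq π .l⟩

end Pool.Agent.A8
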