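import Pool.Agent.Helper89.A8.Stmts

/-!
# Block A8-G01: coprime action, fixed points in invariant cosets (MP_93c1ff)
-/

set_option autoImplicit false

namespace Pool.Agent.A8

namespace G01

open Subgroup

/-- the step: a solvable nontrivial finite group has a proper normal subgroup `K`, an element
`h` and a prime `p` dividing the order with `h ^ p ∈ K` and `K ⊔ <h> = ⊤` -/
theorem step (H : Type) [Group H] [Finite H] [Nontrivial H] (hs : Group.IsSolvable H) :
    ∃ (K : Subgroup H) (h : H) (p : ℕ), K.Normal ∧ K ≠ ⊤ ∧ p.Prime ∧ p ∣ Nat.card H ∧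
      h ^ p ∈ K ∧ K ⊔ zpowers h = ⊤ := by
  have hlt : commutator H < ⊤ := Group.IsSolvable.commutator_lt_top_of_nontrivial H
  obtain ⟨K, hK, hle⟩ := (eq_top_or_exists_le_coatom (commutator H)).resolve_left hlt.ne
  have hn : K.Normal := by
    constructor
    intro n hn g
    have h1 : g * n * g⁻¹ * n⁻¹ ∈ K := hle (commutator_mem_commutator (mem_top g) (mem_top n))
    have h2 := K.mul_mem h1 hn
    rwa [inv_mul_cancel_right] at h2
  obtain ⟨g, hg⟩ : ∃ g : H, g ∉ K := by
    by_contra hc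
    push Not at hc
    exact hK.1 (eq_top_iff.2 fun x _ => hc x)
  -- the order of `g` modulo `K`
  let q : H ⧸ K := QuotientGroup.mk g
  have hq : q ≠ 1 := fun h => hg ((QuotientGroup.eq_one_iff g).1 h)
  have ho : orderOf q ≠ 1 := fun h => hq (orderOf_eq_one_iff.1 h)
  obtain ⟨p, hp, m, hm⟩ := Nat.exists_prime_and_dvd ho
  have hpos : 0 < orderOf q := orderOf_pos q
  have hm0 : 0 < m := by
    rcases Nat.eq_zero_or_pos m with h | h
    · rw [h] at hm; omega
    · exact h
  refine ⟨K, g ^ m, p, hn, hK.1, hp, ?_, ?_, ?_⟩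
  · exact dvd_trans (dvd_trans ⟨m, hm⟩ (orderOf_map_dvd (QuotientGroup.mk' K) g))
      (orderOf_dvd_natCard g)
  · rw [← pow_mul, ← QuotientGroup.eq_one_iff, QuotientGroup.mk_pow, mul_comm, ← hm]
    exact pow_orderOf_eq_one q
  · have h1 : g ^ m ∉ K := by
      intro h
      rw [← QuotientGroup.eq_one_iff, QuotientGroup.mk_pow] at h
      have h2 := Nat.le_of_dvd hm0 (orderOf_dvd_of_pow_eq_one h)
      have h3 : 2 ≤ p := hp.two_le
      nlinarith
    have h2 : K < K ⊔ zpowers (g ^ m) := by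
      refine lt_of_le_of_ne le_sup_left fun h => h1 ?_
      rw [h]
      exact (le_sup_right : zpowers (g ^ m) ≤ _) (mem_zpowers _)
    exact hK.2 _ h2

theorem main (G : Type) [Group G] [Finite G] (N : Subgroup G) (hN : IsPGroup 2 N) :
    ∀ (n : ℕ) (H : Subgroup G), Nat.card H = n → Group.IsSolvable H → Odd (Nat.card H) →
    (∀ h ∈ H, ∀ n ∈ N, h * n * h⁻¹ ∈ N) →
    ∀ x : G, (∀ h ∈ H, x⁻¹ * (h * x * h⁻¹) ∈ N) → ∃ n ∈ N, ∀ h ∈ H, h * (x * n) * h⁻¹ = x * n := by
  intro n
  induction n using Nat.strong_induction_on with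
  | _ n ih =>
  intro H hcard hsol hodd hnorm x hx
  by_cases htriv : Nontrivial H
  swap
  · rw [Subgroup.nontrivial_iff_ne_bot, not_not] at htriv
    refine ⟨1, N.one_mem, fun h hh => ?_⟩
    rw [htriv, Subgroup.mem_bot] at hh
    simp [hh]
  obtain ⟨K, h0, p, hK, hKt, hp, hpd, hpow, htop⟩ := step H hsol
  have hp2 : p ≠ 2 := by
    rintro rfl
    exact (Nat.not_even_iff_odd.2 hodd) (even_iff_two_dvd.2 hpd)
  -- the subgroup of `G`
  let H1 : Subgroup G := K.map H.subtype
  have hH1H : H1 ≤ H := by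
    rintro _ ⟨y, -, rfl⟩
    exact y.2
  have hc1 : Nat.card H1 = Nat.card K :=
    (Nat.card_congr (K.equivMapOfInjective H.subtype H.subtype_injective).toEquiv).symm
  have hlt : Nat.card H1 < n := by
    rw [hc1, ← hcard]
    have h1 := K.card_mul_index
    have h2 : K.index ≠ 1 := fun h => hKt (Subgroup.index_eq_one.1 h)
    have h3 : K.index ≠ 0 := Subgroup.FiniteIndex.index_ne_zero
    have h4 : 0 < Nat.card K := Nat.card_pos
    have h5 : 2 ≤ K.index := by omega
    nlinarith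
  have hodd1 : Odd (Nat.card H1) := by
    rw [hc1]
    exact Odd.of_dvd_nat hodd (Subgroup.card_subgroup_dvd_card K)
  have hsol1 : Group.IsSolvable H1 := by
    have : Group.IsSolvable K := inferInstance
    exact Group.isSolvable_of_isSolvable_injective
      (f := (K.equivMapOfInjective H.subtype H.subtype_injective).symm.toMonoidHom)
      (MulEquiv.injective _)
  obtain ⟨n1, hn1, hfix⟩ := ih _ hlt H1 rfl hsol1 hodd1 (fun h hh => hnorm h (hH1H hh)) x
    (fun h hh => hx h (hH1H hh))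
  -- the set of `H1`-fixed elements of the coset
  let C : Subgroup G := Subgroup.centralizer (H1 : Set G) ⊓ N
  have hCN : C ≤ N := inf_le_right
  have hCp : IsPGroup 2 C := hN.to_le hCN
  let y : G := x * n1
  have hyf : ∀ h ∈ H1, h * y * h⁻¹ = y := hfix
  let t : G := h0
  have ht : t ∈ H := h0.2
  have htp : t ^ p ∈ H1 := ⟨h0 ^ p, hpow, by simp [t]⟩
  have hnorm1 : ∀ h ∈ H1, t⁻¹ * h * t ∈ H1 := by
    rintro _ ⟨k, hk, rfl⟩
    refine ⟨h0⁻¹ * k * h0, ?_, by simp [t]⟩
    have := hK.conj_mem k hk h0⁻¹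
    rwa [inv_inv] at this
  -- the map on the coset
  have hmap : ∀ c ∈ C, y⁻¹ * (t * (y * c) * t⁻¹) ∈ C := by
    intro c hc
    refine Subgroup.mem_inf.2 ⟨?_, ?_⟩
    · rw [Subgroup.mem_centralizer_iff]
      intro h hh
      have hcc : (t⁻¹ * h * t) * c = c * (t⁻¹ * h * t) :=
        (Subgroup.mem_centralizer_iff.1 (Subgroup.mem_inf.1 hc).1) _ (hnorm1 h hh)
      have hy1 : h * y = y * h := by
        have := hyf h hh
        rwa [mul_inv_eq_iff_eq_mul] at this
      have hy2 : (t⁻¹ * h * t) * y = y * (t⁻¹ * h * t) := by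
        have := hyf _ (hnorm1 h hh)
        rwa [mul_inv_eq_iff_eq_mul] at this
      have e1 : h * y⁻¹ = y⁻¹ * h := by
        rw [eq_inv_mul_iff_mul_eq, ← mul_assoc, ← hy1, mul_inv_cancel_right]
      calc h * (y⁻¹ * (t * (y * c) * t⁻¹)) = (h * y⁻¹) * (t * (y * c) * t⁻¹) := by group
        _ = y⁻¹ * t * ((t⁻¹ * h * t) * y * c) * t⁻¹ := by rw [e1]; group
        _ = y⁻¹ * t * (y * (t⁻¹ * h * t) * c) * t⁻¹ := by rw [hy2]
        _ = y⁻¹ * t * (y * ((t⁻¹ * h * t) * c)) * t⁻¹ := by group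
        _ = y⁻¹ * (t * (y * c) * t⁻¹) * h := by rw [hcc]; group
    · have h1 : x⁻¹ * (t * x * t⁻¹) ∈ N := hx t ht
      have h2 : t * (n1 * c) * t⁻¹ ∈ N := hnorm t ht _ (N.mul_mem hn1 (hCN hc))
      have h3 := N.mul_mem (N.mul_mem (N.inv_mem hn1) h1) h2
      have e : n1⁻¹ * (x⁻¹ * (t * x * t⁻¹)) * (t * (n1 * c) * t⁻¹) =
          y⁻¹ * (t * (y * c) * t⁻¹) := by
        simp only [y]; group
      rwa [e] at h3
  let f : Function.End C := fun c => ⟨y⁻¹ * (t * (y * c.1) * t⁻¹), hmap c.1 c.2⟩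
  have hiter : ∀ (k : ℕ) (c : C), y * ((f ^ k) c : C).1 = t ^ k * (y * c.1) * (t ^ k)⁻¹ := by
    intro k
    induction k with
    | zero =>
      intro c
      have e : (f ^ 0) c = c := rfl
      rw [e]
      simp
    | succ k ihk =>
      intro c
      rw [pow_succ]
      have e : (f ^ k * f) c = (f ^ k) (f c) := rfl
      rw [e, ihk (f c)]
      simp only [f]
      rw [pow_succ]
      group
  have hfp : f ^ p ^ 1 = 1 := by
    rw [pow_one]
    funext c
    apply Subtype.ext
    have h1 := hiter p c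
    have hy1 : t ^ p * y = y * t ^ p := by
      have := hyf _ htp
      rwa [mul_inv_eq_iff_eq_mul] at this
    have hcc : t ^ p * c.1 = c.1 * t ^ p :=
      (Subgroup.mem_centralizer_iff.1 (Subgroup.mem_inf.1 c.2).1) _ htp
    have h2 : t ^ p * (y * c.1) * (t ^ p)⁻¹ = y * c.1 := by
      rw [← mul_assoc, hy1, mul_assoc y, hcc, ← mul_assoc, mul_inv_cancel_right]
    rw [h2] at h1
    exact mul_left_cancel h1
  have : Fact p.Prime := ⟨hp⟩
  have : Fintype C := Fintype.ofFinite C
  classical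
  have hmod := Equiv.Perm.card_fixedPoints_modEq hfp
  have hne : Nonempty (Function.fixedPoints f) := by
    by_contra hc
    rw [not_nonempty_iff] at hc
    have h0 : Fintype.card (Function.fixedPoints f) = 0 := Fintype.card_eq_zero
    rw [h0] at hmod
    have h1 : p ∣ Fintype.card C := (Nat.modEq_zero_iff_dvd).1 hmod
    obtain ⟨k, hk⟩ := IsPGroup.iff_card.1 hCp
    rw [Nat.card_eq_fintype_card] at hk
    rw [hk] at h1
    have h2 := (Nat.prime_dvd_prime_iff_eq hp Nat.prime_two).1 (hp.dvd_of_dvd_pow h1)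
    exact hp2 h2
  obtain ⟨c, hc⟩ := hne
  have hc1 : y * c.1 = t * (y * c.1) * t⁻¹ := by
    have h1 : (f c : C) = c := hc
    have h2 := congrArg (fun z : C => y * z.1) h1
    simp only [f] at h2
    rw [mul_inv_cancel_left] at h2
    exact h2.symm
  refine ⟨n1 * c.1, N.mul_mem hn1 (hCN c.2), ?_⟩
  have e : x * (n1 * c.1) = y * c.1 := by simp only [y]; group
  rw [e]
  -- the centraliser of `y c` contains `H`
  let D : Subgroup H := (Subgroup.centralizer {y * c.1}).comap H.subtype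
  have hKD : K ≤ D := by
    intro k hk
    have hk1 : (k : G) ∈ H1 := ⟨k, hk, rfl⟩
    have hy1 : (k : G) * y = y * k := by
      have := hyf _ hk1
      rwa [mul_inv_eq_iff_eq_mul] at this
    have hcc : (k : G) * c.1 = c.1 * k :=
      (Subgroup.mem_centralizer_iff.1 (Subgroup.mem_inf.1 c.2).1) _ hk1
    change (k : G) ∈ Subgroup.centralizer {y * c.1}
    rw [Subgroup.mem_centralizer_iff]
    intro z hz
    rw [Set.mem_singleton_iff.1 hz, mul_assoc, ← hcc, ← mul_assoc, ← hy1, mul_assoc]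
  have htD : zpowers h0 ≤ D := by
    rw [Subgroup.zpowers_le]
    change t ∈ Subgroup.centralizer {y * c.1}
    rw [Subgroup.mem_centralizer_iff]
    intro z hz
    rw [Set.mem_singleton_iff.1 hz]
    rw [eq_mul_inv_iff_mul_eq] at hc1
    exact hc1
  have hD : D = ⊤ := by
    rw [eq_top_iff, ← htop]
    exact sup_le hKD htD
  intro h hh
  have h1 : (⟨h, hh⟩ : H) ∈ D := by rw [hD]; exact Subgroup.mem_top _
  have h2 : h ∈ Subgroup.centralizer {y * c.1} := h1
  rw [Subgroup.mem_centralizer_iff] at h2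
  rw [mul_inv_eq_iff_eq_mul]
  exact (h2 _ rfl).symm

end G01

/-- coprime action -/
theorem bCOP : S_COP := by
  intro G _ _ H N hsol hodd hN hnorm x hx
  exact G01.main G N hN _ H rfl hsol hodd hnorm x hx

end Pool.Agent.A8
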