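import Pool.Agent.Helper89.A8.Stmts

/-!
# Block A8-M22: cocycles of the transvection group (MP_93c1ff)
-/

set_option autoImplicit false

namespace Pool.Agent.A8

open Matrix

namespace M22

theorem one_TT : (1 : Gam) ∈ TT := by
  refine ⟨?_, ?_⟩
  · decide
  · intro i j
    rfl

theorem gt_TT : gt ∈ TT := by
  refine ⟨by decide, ?_⟩
  decide

/-- the conjugates of `gt` under powers of `gh` -/
def tk (k : ℕ) : Gam := gh ^ k * gt * (gh ^ k)⁻¹

/-- the matrix with first row `1, a, b, c` -/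
def tm (a b c : ZMod 2) : M4 := !![1, a, b, c; 0, 1, 0, 0; 0, 0, 1, 0; 0, 0, 0, 1]

theorem tk0 : (tk 0).1 = tm 1 0 0 := by decide
theorem tk1 : (tk 1).1 = tm 1 1 0 := by decide
theorem tk2 : (tk 2).1 = tm 1 1 1 := by decide
theorem tk3 : (tk 3).1 = tm 0 1 1 := by decide
theorem tk4 : (tk 4).1 = tm 1 0 1 := by decide
theorem tk5 : (tk 5).1 = tm 0 1 0 := by decide
theorem tk6 : (tk 6).1 = tm 0 0 1 := by decide

theorem tk_mul : tk 0 * tk 1 = tk 5 := by
  apply Units.ext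
  decide

theorem TT_cases {g : Gam} (hg : g ∈ TT) : g = 1 ∨ ∃ k : ℕ, k < 7 ∧ g = tk k := by
  obtain ⟨h0, h1⟩ := hg
  have e : g.1 = tm (g.1 0 1) (g.1 0 2) (g.1 0 3) := by
    funext i j
    refine Fin.cases ?_ (fun i' => ?_) i
    · fin_cases j
      · exact h0
      · rfl
      · rfl
      · rfl
    · rw [h1 i' j]
      fin_cases i' <;> fin_cases j <;> rfl
  have key : ∀ a b c : ZMod 2, g.1 = tm a b c → g = 1 ∨ ∃ k : ℕ, k < 7 ∧ g = tk k := by
    intro a b c h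
    have hz : ∀ x : ZMod 2, x = 0 ∨ x = 1 := by decide
    rcases hz a with rfl | rfl <;> rcases hz b with rfl | rfl <;> rcases hz c with rfl | rfl
    · left
      apply Units.ext
      rw [h]
      decide
    · exact Or.inr ⟨6, by norm_num, Units.ext (h.trans tk6.symm)⟩
    · exact Or.inr ⟨5, by norm_num, Units.ext (h.trans tk5.symm)⟩
    · exact Or.inr ⟨3, by norm_num, Units.ext (h.trans tk3.symm)⟩
    · exact Or.inr ⟨0, by norm_num, Units.ext (h.trans tk0.symm)⟩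
    · exact Or.inr ⟨4, by norm_num, Units.ext (h.trans tk4.symm)⟩
    · exact Or.inr ⟨1, by norm_num, Units.ext (h.trans tk1.symm)⟩
    · exact Or.inr ⟨2, by norm_num, Units.ext (h.trans tk2.symm)⟩
  exact key _ _ _ e

theorem TT_of {g : Gam} {a b c : ZMod 2} (h : g.1 = tm a b c) : g ∈ TT := by
  refine ⟨?_, ?_⟩
  · rw [h]; rfl
  · intro i j
    rw [h]
    fin_cases i <;> fin_cases j <;> rfl

theorem tk_TT (k : ℕ) (hk : k < 7) : tk k ∈ TT := by
  interval_cases k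
  · exact TT_of tk0
  · exact TT_of tk1
  · exact TT_of tk2
  · exact TT_of tk3
  · exact TT_of tk4
  · exact TT_of tk5
  · exact TT_of tk6

section
variable {X : Type*} [AddCommGroup X] [Module RG X] {l : Gam → X}

theorem l_one (h1 : ∀ t ∈ TT, ∀ t' ∈ TT, l (t * t') = l t + act t (l t')) : l 1 = 0 := by
  have h := h1 1 one_TT 1 one_TT
  rw [mul_one, act_one] at h
  exact left_eq_add.1 h

theorem l_tk (h2 : ∀ t ∈ TT, l (gh * t * gh⁻¹) = act gh (l t)) (k : ℕ) (hk : k < 7) :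
    l (tk k) = act (gh ^ k) (l gt) := by
  induction k with
  | zero =>
    have e : tk 0 = gt := by
      apply Units.ext
      decide
    rw [e, pow_zero, act_one]
  | succ k ih =>
    have e : tk (k + 1) = gh * tk k * gh⁻¹ := by
      simp only [tk, pow_succ']
      group
    rw [e, h2 _ (tk_TT k (by omega)), ih (by omega), ← act_mul, pow_succ']

theorem l_gs (h3 : ∀ t ∈ TT, l (gs * t * gs⁻¹) = act gs (l t)) : act gs (l gt) = l gt := by
  have h := h3 gt gt_TT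
  rw [← h]
  congr 1
  rw [mul_inv_eq_iff_eq_mul, gt_gs]

theorem l_eq (h1 : ∀ t ∈ TT, ∀ t' ∈ TT, l (t * t') = l t + act t (l t'))
    (h2 : ∀ t ∈ TT, l (gh * t * gh⁻¹) = act gh (l t)) :
    act (gh ^ 5) (l gt) = l gt + act gt (act gh (l gt)) := by
  have h := h1 _ (tk_TT 0 (by norm_num)) _ (tk_TT 1 (by norm_num))
  rw [tk_mul, l_tk h2 5 (by norm_num), l_tk h2 0 (by norm_num), l_tk h2 1 (by norm_num)] at h
  have e : tk 0 = gt := by
    apply Units.ext
    decide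
  rw [e, pow_zero, act_one, pow_one] at h
  exact h
end

/-- the matrix of `gh ^ 5` -/
theorem gh5 : (gh ^ 5 : Gam).1 = !![1, 0, 0, 0; 0, 1, 1, 1; 0, 1, 0, 0; 0, 1, 1, 0] := by decide

set_option maxRecDepth 100000 in
theorem rawL : ∀ x : V6, actL gs.1 x = x →
    actL !![1, 0, 0, 0; 0, 1, 1, 1; 0, 1, 0, 0; 0, 1, 1, 0] x = x + actL gt.1 (actL gh.1 x) →
    x = 0 ∨ x = ![1, 0, 0, 0, 0, 1] := by
  decide +kernel

set_option maxRecDepth 100000 in
theorem rawV : ∀ x : V4, gs.1 *ᵥ x = x →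
    !![1, 0, 0, 0; 0, 1, 1, 1; 0, 1, 0, 0; 0, 1, 1, 0] *ᵥ x = x + gt.1 *ᵥ (gh.1 *ᵥ x) →
    x = 0 := by
  decide +kernel

end M22

theorem bCOCL : S_COCL := by
  intro l h1 h2 h3
  have e1 := M22.l_gs h3
  have e2 := M22.l_eq h1 h2
  rw [act_ML] at e1
  rw [act_ML, M22.gh5] at e2
  have e3 : act gt (act gh (l gt)) = actL gt.1 (actL gh.1 (l gt)) :=
    (act_ML gt _).trans (congrArg (actL gt.1) (act_ML gh (l gt)))
  rw [e3] at e2
  rcases M22.rawL (l gt) e1 e2 with h | h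
  · exact Or.inl h
  · right
    refine Eq.trans h ?_
    have e : (![1, 0, 0, 0, 0, 1] : Fin 6 → ZMod 2) = ![1, 0, 0, 0, 0, 0] + ![0, 0, 0, 0, 0, 1] := by
      decide
    exact e

theorem bCOCV : S_COCV := by
  intro l h1 h2 h3
  have e1 := M22.l_gs h3
  have e2 := M22.l_eq h1 h2
  rw [act_MV] at e1
  rw [act_MV, M22.gh5] at e2
  have e3 : act gt (act gh (l gt)) = gt.1 *ᵥ (gh.1 *ᵥ (l gt)) :=
    (act_MV gt _).trans (congrArg (fun z : V4 => gt.1 *ᵥ z) (act_MV gh (l gt)))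
  rw [e3] at e2
  have h0 : l gt = 0 := M22.rawV (l gt) e1 e2
  intro t ht
  rcases M22.TT_cases ht with rfl | ⟨k, hk, rfl⟩
  · exact M22.l_one h1
  · rw [M22.l_tk h2 k hk, h0, act_zero]

end Pool.Agent.A8
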