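import Pool.Agent.Helper89.A8.Stmts

/-!
# Block A8-M23: facts on `GL_4(2)` (MP_93c1ff)
-/

set_option autoImplicit false

namespace Pool.Agent.A8

open Matrix

namespace M23

/-! ### nilpotent elements of the algebras commuting with `gs`, `ga` -/

theorem nil_sq (S : M4) (h : ∀ N : M4, N * S = S * N → N * N * (N * N) = 0 → N * N = 0) :
    ∀ (k : ℕ) (N : M4), N * S = S * N → N ^ 2 ^ k = 0 → N * N = 0 := by
  intro k
  induction k with
  | zero =>
    intro N _ h0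
    rw [pow_zero, pow_one] at h0
    rw [h0, mul_zero]
  | succ k ih =>
    intro N hN h0
    have h1 : (N * N) * S = S * (N * N) := by
      rw [mul_assoc, hN, ← mul_assoc, hN, mul_assoc]
    rw [pow_succ', pow_mul, pow_two] at h0
    exact h N hN (ih _ h1 h0)

theorem unip (g : Gam) (S : M4) (hg : g.1 * S = S * g.1)
    (h : ∀ N : M4, N * S = S * N → N * N * (N * N) = 0 → N * N = 0)
    (k : ℕ) (hk : g ^ 2 ^ k = 1) : ∃ N : M4, g.1 = 1 + N ∧ N * S = S * N ∧ N * N = 0 := by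
  have hadd : ∀ M : M4, M + M = 0 := by
    intro M
    ext i j
    exact zadd _
  refine ⟨1 + g.1, ?_, ?_, ?_⟩
  · rw [← add_assoc, hadd, zero_add]
  · rw [add_mul, mul_add, one_mul, mul_one, hg]
  · refine nil_sq S h k _ ?_ ?_
    · rw [add_mul, mul_add, one_mul, mul_one, hg]
    · rw [add_pow_char_pow_of_commute 2 k (Commute.one_left g.1), one_pow, ← Units.val_pow_eq_pow_val,
        hk, Units.val_one, hadd]

/-- the algebra commuting with `gs` -/
def fs (a b c d e f : ZMod 2) : M4 := !![a, b, 0, 0; c, d, 0, 0; 0, 0, e, f; 0, 0, f, e + f]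
/-- the algebra commuting with `ga` -/
def fa (a b c d e f g h : ZMod 2) : M4 :=
  !![a, b, c, d; b, a + b, d, c + d; e, f, g, h; f, e + f, h, g + h]

theorem comm_gs (N : M4) (h : N * gs.1 = gs.1 * N) :
    N = fs (N 0 0) (N 0 1) (N 1 0) (N 1 1) (N 2 2) (N 2 3) := by
  have e : ∀ i j, (N * gs.1) i j = (gs.1 * N) i j := fun i j => by rw [h]
  have key : ∀ x y : ZMod 2, x = y → y + x = x → y = 0 := by decide
  have e02 := e 0 2
  have e03 := e 0 3
  have e12 := e 1 2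
  have e13 := e 1 3
  have e20 := e 2 0
  have e21 := e 2 1
  have e30 := e 3 0
  have e31 := e 3 1
  have e22 := e 2 2
  have e23 := e 2 3
  simp [gs, mkG, Matrix.mul_apply, Fin.sum_univ_four] at e02 e03 e12 e13 e20 e21 e30 e31 e22 e23
  funext i j
  fin_cases i <;> fin_cases j <;> simp [fs] <;> simp_all

theorem comm_ga (N : M4) (h : N * ga.1 = ga.1 * N) :
    N = fa (N 0 0) (N 0 1) (N 0 2) (N 0 3) (N 2 0) (N 2 1) (N 2 2) (N 2 3) := by
  have e : ∀ i j, (N * ga.1) i j = (ga.1 * N) i j := fun i j => by rw [h]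
  have e00 := e 0 0
  have e01 := e 0 1
  have e02 := e 0 2
  have e03 := e 0 3
  have e20 := e 2 0
  have e21 := e 2 1
  have e22 := e 2 2
  have e23 := e 2 3
  simp [ga, mkG, Matrix.mul_apply, Fin.sum_univ_four] at e00 e01 e02 e03 e20 e21 e22 e23
  funext i j
  fin_cases i <;> fin_cases j <;> simp [fa] <;> simp_all

/-- the entries of the square of `fs` -/
theorem fs_sq (a b c d e f : ZMod 2) : fs a b c d e f * fs a b c d e f =
    fs (a * a + b * c) (a * b + b * d) (c * a + d * c) (c * b + d * d) (e * e + f * f)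
      (e * f + f * (e + f)) := by
  revert a b c d e f
  decide +kernel

theorem fs_eq_zero {a b c d e f : ZMod 2} (h : fs a b c d e f = 0) :
    a = 0 ∧ b = 0 ∧ c = 0 ∧ d = 0 ∧ e = 0 ∧ f = 0 :=
  ⟨congrFun (congrFun h 0) 0, congrFun (congrFun h 0) 1, congrFun (congrFun h 1) 0,
    congrFun (congrFun h 1) 1, congrFun (congrFun h 2) 2, congrFun (congrFun h 2) 3⟩

theorem fs4a : ∀ a b c d e f : ZMod 2,
    fs a b c d e f * fs a b c d e f = 0 ∨
    (fs a b c d e f * fs a b c d e f) * (fs a b c d e f * fs a b c d e f) ≠ 0 := by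
  decide +kernel

theorem fs4 (N : M4) (h : N * gs.1 = gs.1 * N) (h4 : N * N * (N * N) = 0) : N * N = 0 := by
  rw [comm_gs N h] at h4 ⊢
  rcases fs4a (N 0 0) (N 0 1) (N 1 0) (N 1 1) (N 2 2) (N 2 3) with h5 | h5
  · exact h5
  · exact absurd h4 h5

theorem fs2a : ∀ a b c d e f : ZMod 2,
    a * a + b * c = 0 → a * b + b * d = 0 → c * a + d * c = 0 → c * b + d * d = 0 →
      e * e + f * f = 0 → e * f + f * (e + f) = 0 →
      (fs a b c d e f = 0 ∨ fs a b c d e f = fs 0 1 0 0 0 0 ∨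
      fs a b c d e f = fs 0 0 1 0 0 0 ∨ fs a b c d e f = fs 1 1 1 1 0 0) := by
  decide +kernel

theorem fs2 (N : M4) (h : N * gs.1 = gs.1 * N) (h2 : N * N = 0) :
    N = 0 ∨ N = fs 0 1 0 0 0 0 ∨ N = fs 0 0 1 0 0 0 ∨ N = fs 1 1 1 1 0 0 := by
  rw [comm_gs N h] at h2 ⊢
  rw [fs_sq] at h2
  obtain ⟨e1, e2, e3, e4, e5, e6⟩ := fs_eq_zero h2
  exact fs2a _ _ _ _ _ _ e1 e2 e3 e4 e5 e6

theorem fa4a : ∀ a b c d e f g h : ZMod 2,
    fa a b c d e f g h * fa a b c d e f g h = 0 ∨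
    (fa a b c d e f g h * fa a b c d e f g h) * (fa a b c d e f g h * fa a b c d e f g h) ≠ 0 := by
  decide +kernel

theorem fa4 (N : M4) (h : N * ga.1 = ga.1 * N) (h4 : N * N * (N * N) = 0) : N * N = 0 := by
  rw [comm_ga N h] at h4 ⊢
  rcases fa4a (N 0 0) (N 0 1) (N 0 2) (N 0 3) (N 2 0) (N 2 1) (N 2 2) (N 2 3) with h5 | h5
  · exact h5
  · exact absurd h4 h5

/-! ### a Sylow 3-subgroup -/

/-- the powers of the matrix `0 1; 1 1` -/
def wm : Fin 3 → Matrix (Fin 2) (Fin 2) (ZMod 2) := ![!![1, 0; 0, 1], !![0, 1; 1, 1], !![1, 1; 1, 0]]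

/-- the matrix of `gr ^ i * gs ^ j` -/
def pm (i j : Fin 3) : M4 :=
  !![wm i 0 0, wm i 0 1, 0, 0; wm i 1 0, wm i 1 1, 0, 0; 0, 0, wm j 0 0, wm j 0 1;
    0, 0, wm j 1 0, wm j 1 1]

theorem pm_mul : ∀ i j k l : Fin 3, pm i j * pm k l = pm (i + k) (j + l) := by decide +kernel

theorem pm_zero : pm 0 0 = 1 := by decide +kernel

theorem pm_inj : ∀ i j k l : Fin 3, pm i j = pm k l → i = k ∧ j = l := by decide +kernel

/-- the element `gr ^ i * gs ^ j` -/
def pg (p : Fin 3 × Fin 3) : Gam := ⟨pm p.1 p.2, pm (-p.1) (-p.2),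
  by rw [pm_mul, add_neg_cancel, add_neg_cancel, pm_zero],
  by rw [pm_mul, neg_add_cancel, neg_add_cancel, pm_zero]⟩

theorem pg_mul (p q : Fin 3 × Fin 3) : pg p * pg q = pg (p + q) :=
  Units.ext (pm_mul _ _ _ _)

theorem pg_zero : pg 0 = 1 := Units.ext pm_zero

theorem pg_inj : Function.Injective pg := by
  intro p q h
  have h1 : pm p.1 p.2 = pm q.1 q.2 := congrArg Units.val h
  obtain ⟨h2, h3⟩ := pm_inj _ _ _ _ h1
  exact Prod.ext h2 h3

/-- the subgroup of order 9 -/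
def PS : Subgroup Gam where
  carrier := Set.range pg
  one_mem' := ⟨0, pg_zero⟩
  mul_mem' := by
    rintro _ _ ⟨p, rfl⟩ ⟨q, rfl⟩
    exact ⟨p + q, (pg_mul p q).symm⟩
  inv_mem' := by
    rintro _ ⟨p, rfl⟩
    refine ⟨-p, ?_⟩
    rw [eq_inv_iff_mul_eq_one, pg_mul, neg_add_cancel, pg_zero]

theorem card_PS : Nat.card PS = 9 := by
  have h : Nat.card PS = Nat.card (Fin 3 × Fin 3) :=
    (Nat.card_congr (Equiv.ofInjective pg pg_inj)).symm
  rw [h]
  simp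

theorem card_Gam : Nat.card Gam = 20160 := by
  have h := Matrix.card_GL_field (𝔽 := ZMod 2) 4
  rw [Gam, h]
  simp only [ZMod.card, Fin.prod_univ_four]
  norm_num

theorem fact3 : (20160 : ℕ).factorization 3 = 2 := by
  have h : (20160 : ℕ) = 3 ^ 2 * 2240 := by norm_num
  rw [h, Nat.factorization_mul (by norm_num) (by norm_num), Finsupp.add_apply,
    Nat.Prime.factorization_pow Nat.prime_three, Finsupp.single_eq_same,
    Nat.factorization_eq_zero_of_not_dvd (by norm_num)]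

/-- the Sylow subgroup -/
noncomputable def PSy : Sylow 3 Gam := Sylow.ofCard PS (by rw [card_PS, card_Gam, fact3]; norm_num)

theorem conj_PS (g : Gam) (h3 : g ^ 3 = 1) : ∃ c : Gam, c * g * c⁻¹ ∈ PS := by
  have hp : IsPGroup 3 (Subgroup.zpowers g) := by
    intro x
    refine ⟨1, ?_⟩
    obtain ⟨k, hk⟩ := Subgroup.mem_zpowers_iff.1 x.2
    apply Subtype.ext
    rw [Subgroup.coe_pow, ← hk, Subgroup.coe_one, pow_one, ← zpow_natCast,
      ← _root_.zpow_mul, mul_comm, _root_.zpow_mul, zpow_natCast, h3, _root_.one_zpow]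
  obtain ⟨Q, hQ⟩ := hp.exists_le_sylow
  obtain ⟨c, hc⟩ := MulAction.exists_smul_eq Gam Q PSy
  refine ⟨c, ?_⟩
  have h1 : g ∈ Q := hQ (Subgroup.mem_zpowers g)
  have h2 : c * g * c⁻¹ ∈ c • Q := by
    rw [← MulAut.conj_apply, ← MulAut.smul_def]
    exact Subgroup.smul_mem_pointwise_smul g (MulAut.conj c) _ h1
  rw [hc] at h2
  exact h2

/-- conjugating matrices -/
theorem conj_of {g h : Gam} (A B : M4) (h1 : A * B = 1) (h2 : B * A = 1)
    (he : A * g.1 = h.1 * A) : ∃ c : Gam, c * g * c⁻¹ = h := by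
  refine ⟨⟨A, B, h1, h2⟩, ?_⟩
  rw [mul_inv_eq_iff_eq_mul]
  exact Units.ext he

theorem pg_conj : ∀ p : Fin 3 × Fin 3, p ≠ 0 → ∃ c : Gam, c * pg p * c⁻¹ = gs ∨
    c * pg p * c⁻¹ = ga := by
  rintro ⟨i, j⟩ hne
  fin_cases i <;> fin_cases j
  · exact absurd rfl hne
  · obtain ⟨c, hc⟩ := conj_of (g := pg (0, 1)) (h := gs) 1 1 (by decide) (by decide) (by decide)
    exact ⟨c, Or.inl hc⟩
  · obtain ⟨c, hc⟩ := conj_of (g := pg (0, 2)) (h := gs)
      !![0, 1, 0, 0; 1, 0, 0, 0; 0, 0, 1, 0; 0, 0, 1, 1]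
      !![0, 1, 0, 0; 1, 0, 0, 0; 0, 0, 1, 0; 0, 0, 1, 1] (by decide) (by decide) (by decide)
    exact ⟨c, Or.inl hc⟩
  · obtain ⟨c, hc⟩ := conj_of (g := pg (1, 0)) (h := gs)
      !![0, 0, 1, 0; 0, 0, 1, 1; 0, 1, 0, 0; 1, 1, 0, 0]
      !![0, 0, 1, 1; 0, 0, 1, 0; 1, 0, 0, 0; 1, 1, 0, 0] (by decide) (by decide) (by decide)
    exact ⟨c, Or.inl hc⟩
  · obtain ⟨c, hc⟩ := conj_of (g := pg (1, 1)) (h := ga) 1 1 (by decide) (by decide) (by decide)
    exact ⟨c, Or.inr hc⟩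
  · obtain ⟨c, hc⟩ := conj_of (g := pg (1, 2)) (h := ga)
      !![0, 0, 0, 1; 0, 0, 1, 0; 1, 0, 1, 1; 0, 1, 0, 1]
      !![1, 1, 1, 0; 1, 0, 0, 1; 0, 1, 0, 0; 1, 0, 0, 0] (by decide) (by decide) (by decide)
    exact ⟨c, Or.inr hc⟩
  · obtain ⟨c, hc⟩ := conj_of (g := pg (2, 0)) (h := gs)
      !![0, 0, 1, 0; 0, 0, 1, 1; 0, 1, 0, 0; 1, 0, 0, 0]
      !![0, 0, 0, 1; 0, 0, 1, 0; 1, 0, 0, 0; 1, 1, 0, 0] (by decide) (by decide) (by decide)
    exact ⟨c, Or.inl hc⟩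
  · obtain ⟨c, hc⟩ := conj_of (g := pg (2, 1)) (h := ga)
      !![1, 1, 0, 0; 0, 1, 0, 0; 0, 0, 1, 0; 0, 0, 0, 1]
      !![1, 1, 0, 0; 0, 1, 0, 0; 0, 0, 1, 0; 0, 0, 0, 1] (by decide) (by decide) (by decide)
    exact ⟨c, Or.inr hc⟩
  · obtain ⟨c, hc⟩ := conj_of (g := pg (2, 2)) (h := ga)
      !![0, 0, 0, 1; 0, 0, 1, 0; 1, 1, 1, 1; 0, 1, 0, 1]
      !![0, 1, 1, 1; 1, 0, 0, 1; 0, 1, 0, 0; 1, 0, 0, 0] (by decide) (by decide) (by decide)
    exact ⟨c, Or.inr hc⟩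

end M23

/-- elements of order 3 -/
theorem bO3 : S_O3 := by
  intro g h3 h1
  obtain ⟨c, p, hp⟩ := M23.conj_PS g h3
  have hp0 : p ≠ 0 := by
    rintro rfl
    rw [M23.pg_zero] at hp
    rw [eq_mul_inv_iff_mul_eq, one_mul] at hp
    exact h1 (mul_eq_left.1 hp.symm)
  obtain ⟨d, hd⟩ := M23.pg_conj p hp0
  refine ⟨d * c, ?_⟩
  have e : d * c * g * (d * c)⁻¹ = d * M23.pg p * d⁻¹ := by
    rw [hp]; group
  rw [e]
  exact hd

/-- 2-elements commuting with `gs` -/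
theorem bCGS : S_CGS := by
  rintro g hg ⟨k, hk⟩
  obtain ⟨N, h1, h2, h3⟩ := M23.unip g gs.1 (congrArg Units.val hg) M23.fs4 k hk
  rcases M23.fs2 N h2 h3 with h | h | h | h
  · left
    apply Units.ext
    rw [h1, h, add_zero, Units.val_one]
  · right
    refine ⟨1, by rw [one_mul, mul_one], ?_⟩
    rw [one_mul, inv_one, mul_one]
    apply Units.ext
    rw [h1, h]
    decide
  · right
    refine ⟨gr * gr, by rw [mul_assoc, ← gs_gr, ← mul_assoc, ← gs_gr, mul_assoc], ?_⟩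
    rw [mul_inv_eq_iff_eq_mul]
    apply Units.ext
    rw [Units.val_mul, h1, h]
    decide
  · right
    refine ⟨gr, gs_gr.symm, ?_⟩
    rw [mul_inv_eq_iff_eq_mul]
    apply Units.ext
    rw [Units.val_mul, h1, h]
    decide

/-- 2-elements commuting with `ga` -/
theorem bCGA : S_CGA := by
  rintro g hg ⟨k, hk⟩
  obtain ⟨N, h1, h2, h3⟩ := M23.unip g ga.1 (congrArg Units.val hg) M23.fa4 k hk
  apply Units.ext
  have hadd : N + N = 0 := by
    ext i j
    exact zadd _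
  rw [Units.val_mul, h1, Units.val_one, add_mul, one_mul, mul_add, mul_one, h3, add_zero,
    add_assoc, hadd, add_zero]

end Pool.Agent.A8
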